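import Pool.Agent.Y922.NV.Stm

set_option autoImplicit false

/-!
The phase of the grid part (helper74).
-/

namespace Pool.Agent.Y74.NV

open Pool.Agent.Y922.NV
open scoped Real

theorem arctan_ge {t : ℝ} (ht : 0 < t) : π / 2 - 1 / t ≤ Real.arctan t := by
  have h1 := Real.arctan_inv_of_pos ht
  have h2 : Real.arctan t⁻¹ ≤ t⁻¹ := by
    have h3 : 0 ≤ Real.arctan t⁻¹ := Real.arctan_nonneg.2 (inv_nonneg.2 ht.le)
    have h4 := Real.le_tan h3 (Real.arctan_lt_pi_div_two _)
    rwa [Real.tan_arctan] at h4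
  rw [one_div]
  linarith

theorem t_grid : S_GRID := by
  intro j x1 x2 _ hx12 _
  set ν : ℝ := (j : ℝ) + 1 with hν
  have hν1 : 1 ≤ ν := by
    have : (0 : ℝ) ≤ (j : ℝ) := Nat.cast_nonneg j
    linarith
  have hν0 : 0 < ν := by linarith
  have hy0 : 0 < 1 / (100 * ν ^ 2) := by positivity
  set S := Finset.Icc (-((j : ℤ) + 1)) ((j : ℤ) + 1) with hS
  set f : ℤ → ℝ := fun k => 2 * Real.arctan ((x2 - (k : ℝ) / ν) / (1 / (100 * ν ^ 2))) -
    2 * Real.arctan ((x1 - (k : ℝ) / ν) / (1 / (100 * ν ^ 2))) with hf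
  set E := S.filter (fun k : ℤ => x1 < (k : ℝ) / ν ∧ (k : ℝ) / ν < x2) with hE
  set E2 := S.filter (fun k : ℤ => x1 + 1 / ν ≤ (k : ℝ) / ν ∧ (k : ℝ) / ν ≤ x2 - 1 / ν) with hE2
  have hnonneg : ∀ k, 0 ≤ f k := by
    intro k
    have h1 : (x1 - (k : ℝ) / ν) / (1 / (100 * ν ^ 2)) ≤
        (x2 - (k : ℝ) / ν) / (1 / (100 * ν ^ 2)) := by
      apply div_le_div_of_nonneg_right _ hy0.le
      linarith
    have h2 := Real.arctan_le_arctan_iff.2 h1
    simp only [hf]
    linarith
  have hbig : ∀ k ∈ E2, 2 * π - 1 / (25 * ν) ≤ f k := by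
    intro k hk
    obtain ⟨h1, h2⟩ := (Finset.mem_filter.1 hk).2
    have h3 : 100 * ν ≤ (x2 - (k : ℝ) / ν) / (1 / (100 * ν ^ 2)) := by
      rw [le_div_iff₀ hy0]
      have : 100 * ν * (1 / (100 * ν ^ 2)) = 1 / ν := by field_simp
      rw [this]
      linarith
    have h4 : (x1 - (k : ℝ) / ν) / (1 / (100 * ν ^ 2)) ≤ -(100 * ν) := by
      rw [div_le_iff₀ hy0]
      have : -(100 * ν) * (1 / (100 * ν ^ 2)) = -(1 / ν) := by field_simp
      rw [this]
      linarith
    have h5 := arctan_ge (t := 100 * ν) (by positivity)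
    have h6 := Real.arctan_le_arctan_iff.2 h3
    have h7 := Real.arctan_le_arctan_iff.2 h4
    rw [Real.arctan_neg] at h7
    have h8 : (1 : ℝ) / (25 * ν) = 4 * (1 / (100 * ν)) := by
      field_simp
      norm_num
    simp only [hf]
    rw [h8]
    linarith
  have hsub : E ⊆ E2 ∪ {⌊ν * x1⌋ + 1, ⌈ν * x2⌉ - 1} := by
    intro k hk
    obtain ⟨hkS, h1, h2⟩ := Finset.mem_filter.1 hk
    rw [Finset.mem_union, Finset.mem_insert, Finset.mem_singleton]
    have h1' : ν * x1 < k := by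
      rw [lt_div_iff₀ hν0] at h1
      linarith
    have h2' : (k : ℝ) < ν * x2 := by
      rw [div_lt_iff₀ hν0] at h2
      linarith
    by_cases h3 : x1 + 1 / ν ≤ (k : ℝ) / ν
    · by_cases h4 : (k : ℝ) / ν ≤ x2 - 1 / ν
      · exact Or.inl (Finset.mem_filter.2 ⟨hkS, h3, h4⟩)
      · right; right
        rw [not_le] at h4
        have h5 : ν * x2 - 1 < k := by
          rw [lt_div_iff₀ hν0] at h4
          have : (x2 - 1 / ν) * ν = ν * x2 - 1 := by field_simp
          linarith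
        have h6 : ⌈ν * x2⌉ ≤ k + 1 := by
          rw [Int.ceil_le]
          push_cast
          linarith
        have h7 : k < ⌈ν * x2⌉ := by
          rw [Int.lt_ceil]
          exact h2'
        omega
    · right; left
      rw [not_le] at h3
      have h5 : (k : ℝ) < ν * x1 + 1 := by
        rw [div_lt_iff₀ hν0] at h3
        have : (x1 + 1 / ν) * ν = ν * x1 + 1 := by field_simp
        linarith
      have h6 : ⌊ν * x1⌋ < k := by
        rw [Int.floor_lt]
        exact h1'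
      have h7 : k - 1 ≤ ⌊ν * x1⌋ := by
        rw [Int.le_floor]
        push_cast
        linarith
      omega
  have hcard : (E.card : ℝ) ≤ E2.card + 2 := by
    have h1 := (Finset.card_le_card hsub).trans (Finset.card_union_le _ _)
    have h2 : ({⌊ν * x1⌋ + 1, ⌈ν * x2⌉ - 1} : Finset ℤ).card ≤ 2 := Finset.card_le_two
    exact_mod_cast h1.trans (by omega)
  have hcard2 : (E2.card : ℝ) ≤ 3 * ν := by
    have h1 : E2.card ≤ S.card := Finset.card_filter_le _ _
    have h2 : S.card = 2 * j + 3 := by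
      rw [hS, Int.card_Icc]
      omega
    have h3 : (E2.card : ℝ) ≤ 2 * j + 3 := by
      rw [h2] at h1
      exact_mod_cast h1
    have : (0 : ℝ) ≤ (j : ℝ) := Nat.cast_nonneg j
    linarith
  have hsum1 : ∑ k ∈ E2, f k ≤ ∑ k ∈ S, f k :=
    Finset.sum_le_sum_of_subset_of_nonneg (Finset.filter_subset _ _) fun k _ _ => hnonneg k
  have hsum2 : (E2.card : ℝ) * (2 * π - 1 / (25 * ν)) ≤ ∑ k ∈ E2, f k := by
    have := Finset.card_nsmul_le_sum E2 f _ hbig
    rwa [nsmul_eq_mul] at this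
  have hloss : (E2.card : ℝ) * (1 / (25 * ν)) ≤ 1 := by
    calc (E2.card : ℝ) * (1 / (25 * ν)) ≤ 3 * ν * (1 / (25 * ν)) :=
          mul_le_mul_of_nonneg_right hcard2 (by positivity)
      _ = 3 / 25 := by field_simp
      _ ≤ 1 := by norm_num
  have hpi := Real.pi_pos
  have hfin : 2 * π * ((E.card : ℝ) - 2) ≤ 2 * π * E2.card :=
    mul_le_mul_of_nonneg_left (by linarith) (by positivity)
  have hgoal : 2 * π * ((E.card : ℝ) - 2) - 1 ≤ ∑ k ∈ S, f k := by
    nlinarith [hsum1, hsum2, hloss, hfin]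
  exact hgoal

end Pool.Agent.Y74.NV
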